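import Pool.Agent.H31Z.SqRigid

/-!
# Square roots of metric spaces under the Euclidean product metric

There are complete separable metric spaces `A` and `B` that are not isometric while `A × A` and
`B × B`, with the Euclidean product metric (Mathlib's `WithLp 2`), are isometric.
-/

set_option autoImplicit false

namespace Pool.Agent.Results.MP_1231ed_gt.CompleteCounterexample

theorem result : ∃ (A B : Type) (_ : MetricSpace A) (_ : MetricSpace B),
    CompleteSpace A ∧ CompleteSpace B ∧
    TopologicalSpace.SeparableSpace A ∧ TopologicalSpace.SeparableSpace B ∧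
    Nonempty (WithLp 2 (A × A) ≃ᵢ WithLp 2 (B × B)) ∧ IsEmpty (A ≃ᵢ B) :=
  Pool.Agent.H31Z.Sq.main

end Pool.Agent.Results.MP_1231ed_gt.CompleteCounterexample
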